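import Pool.Agent.Helper60.PlzA.Goals

/-!
Packet PLA WINU (project of helper60, MP_8e7d5e_co): windows of walks, upper bound.
-/

set_option autoImplicit false

namespace Pool.Agent.Helper40.PlzA

open Finset Pool.Agent.Helper60.PlzA Pool.Agent.Helper93.Plz

open scoped Classical

variable {V : Type} [Fintype V]

lemma ev_of_le {k : ℕ} (x : Fin (k + 1) → V) (i : ℕ) (h : i ≤ k) :
    ev x i = x ⟨i, Nat.lt_succ_of_le h⟩ := by
  unfold ev
  congr 1
  apply Fin.ext
  simp [h]

lemma mem_Wk (G : SimpleGraph V) {k : ℕ} (x : Fin (k + 1) → V) :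
    x ∈ Wk G k ↔ ∀ i < k, G.Adj (ev x i) (ev x (i + 1)) := by
  unfold Wk
  simp

/-- sums over fibres -/
lemma fib {A B : Type} [DecidableEq B] (s : Finset A) (u : Finset B) (g : A → B)
    (F : B → ℝ) (t : ℕ) (hF : ∀ b, 0 ≤ F b) (hg : ∀ a ∈ s, g a ∈ u)
    (hc : ∀ b ∈ u, (s.filter (fun a => g a = b)).card ≤ t) :
    ∑ a ∈ s, F (g a) ≤ t * ∑ b ∈ u, F b := by
  rw [← Finset.sum_fiberwise_of_maps_to hg, Finset.mul_sum]
  apply Finset.sum_le_sum
  intro b hb
  have h1 : ∑ a ∈ s.filter (fun a => g a = b), F (g a) =
      ∑ a ∈ s.filter (fun a => g a = b), F b := by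
    apply Finset.sum_congr rfl
    intro a ha
    rw [(Finset.mem_filter.1 ha).2]
  rw [h1, Finset.sum_const, nsmul_eq_mul]
  apply mul_le_mul_of_nonneg_right _ (hF b)
  exact_mod_cast hc b hb

lemma step_last (G : SimpleGraph V) (t : ℕ) (hd : ∀ v, dgr G v ≤ t) (k : ℕ)
    (F : (Fin (k + 1) → V) → ℝ) (hF : ∀ y, 0 ≤ F y) :
    ∑ x ∈ Wk G (k + 1), F (fun j => x j.castSucc) ≤ t * ∑ y ∈ Wk G k, F y := by
  apply fib (Wk G (k + 1)) (Wk G k) (fun x j => x j.castSucc) F t hF
  · intro x hx
    rw [mem_Wk] at hx ⊢
    intro i hi
    have := hx i (by omega)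
    rw [ev_of_le x i (by omega), ev_of_le x (i + 1) (by omega)] at this
    rw [ev_of_le _ i (by omega), ev_of_le _ (i + 1) (by omega)]
    exact this
  · intro y _
    refine le_trans ?_ (hd (y (Fin.last k)))
    unfold dgr
    apply Finset.card_le_card_of_injOn (fun x => x (Fin.last (k + 1)))
    · intro x hx
      rw [Finset.mem_coe, Finset.mem_filter] at hx
      obtain ⟨hx, he⟩ := hx
      rw [mem_Wk] at hx
      have := hx k (by omega)
      rw [ev_of_le x k (by omega), ev_of_le x (k + 1) (by omega)] at this
      rw [Finset.mem_coe]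
      unfold nbs
      simp only [Finset.mem_filter, Finset.mem_univ, true_and]
      rw [← he]
      exact this
    · intro x hx x' hx' hxx
      rw [Finset.mem_coe, Finset.mem_filter] at hx hx'
      have h1 := hx.2.trans hx'.2.symm
      funext j
      induction j using Fin.lastCases with
      | last => exact hxx
      | cast j => exact congrFun h1 j

lemma step_first (G : SimpleGraph V) (t : ℕ) (hd : ∀ v, dgr G v ≤ t) (k : ℕ)
    (F : (Fin (k + 1) → V) → ℝ) (hF : ∀ y, 0 ≤ F y) :
    ∑ x ∈ Wk G (k + 1), F (fun j => x j.succ) ≤ t * ∑ y ∈ Wk G k, F y := by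
  apply fib (Wk G (k + 1)) (Wk G k) (fun x j => x j.succ) F t hF
  · intro x hx
    rw [mem_Wk] at hx ⊢
    intro i hi
    have := hx (i + 1) (by omega)
    rw [ev_of_le x (i + 1) (by omega), ev_of_le x (i + 1 + 1) (by omega)] at this
    rw [ev_of_le _ i (by omega), ev_of_le _ (i + 1) (by omega)]
    exact this
  · intro y _
    refine le_trans ?_ (hd (y 0))
    unfold dgr
    apply Finset.card_le_card_of_injOn (fun x => x 0)
    · intro x hx
      rw [Finset.mem_coe, Finset.mem_filter] at hx
      obtain ⟨hx, he⟩ := hx
      rw [mem_Wk] at hx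
      have := hx 0 (by omega)
      rw [ev_of_le x 0 (by omega), ev_of_le x (0 + 1) (by omega)] at this
      rw [Finset.mem_coe]
      unfold nbs
      simp only [Finset.mem_filter, Finset.mem_univ, true_and]
      rw [← he]
      exact this.symm
    · intro x hx x' hx' hxx
      rw [Finset.mem_coe, Finset.mem_filter] at hx hx'
      have h1 := hx.2.trans hx'.2.symm
      funext j
      induction j using Fin.cases with
      | zero => exact hxx
      | succ j => exact congrFun h1 j

/-- Packet WINU. -/
theorem winu : S_WINU := by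
  intro V _ G t hd k
  induction k with
  | zero =>
    intro i m him f hf
    have hm : m = 0 := by omega
    have hi : i = 0 := by omega
    subst hm; subst hi
    simp only [Nat.sub_self, pow_zero, one_mul]
    apply le_of_eq
    apply Finset.sum_congr rfl
    intro x _
    congr 1
    funext j
    rw [ev_of_le x (0 + (j : ℕ)) (by omega)]
    congr 1
    apply Fin.ext
    simp
  | succ k ih =>
    intro i m him f hf
    rcases Nat.lt_or_ge k m with hkm | hkm
    · have hm : m = k + 1 := by omega
      have hi : i = 0 := by omega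
      subst hm; subst hi
      simp only [Nat.sub_self, pow_zero, one_mul]
      apply le_of_eq
      apply Finset.sum_congr rfl
      intro x _
      congr 1
      funext j
      rw [ev_of_le x (0 + (j : ℕ)) (by omega)]
      congr 1
      apply Fin.ext
      simp
    · have hpow : (t : ℝ) ^ (k + 1 - m) = t * (t : ℝ) ^ (k - m) := by
        rw [show k + 1 - m = (k - m) + 1 by omega, pow_succ]
        ring
      have ht : (0 : ℝ) ≤ t := Nat.cast_nonneg t
      rcases Nat.lt_or_ge k (i + m) with h | h
      · have h1 := step_first G t hd k (fun x => f (fun j : Fin (m + 1) => ev x (i - 1 + (j : ℕ))))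
          (fun y => hf _)
        have h2 := ih (i - 1) m (by omega) f hf
        have h3 : ∑ x ∈ Wk G (k + 1), f (fun j : Fin (m + 1) => ev x (i + (j : ℕ))) =
            ∑ x ∈ Wk G (k + 1), f (fun j : Fin (m + 1) =>
              ev (fun j : Fin (k + 1) => x j.succ) (i - 1 + (j : ℕ))) := by
          apply Finset.sum_congr rfl
          intro x _
          congr 1
          funext j
          have hj := j.2
          rw [ev_of_le x (i + (j : ℕ)) (by omega), ev_of_le _ (i - 1 + (j : ℕ)) (by omega)]
          congr 1
          apply Fin.ext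
          simp
          omega
        rw [h3, hpow, mul_assoc]
        exact h1.trans (mul_le_mul_of_nonneg_left h2 ht)
      · have h1 := step_last G t hd k (fun x => f (fun j : Fin (m + 1) => ev x (i + (j : ℕ))))
          (fun y => hf _)
        have h2 := ih i m h f hf
        have h3 : ∑ x ∈ Wk G (k + 1), f (fun j : Fin (m + 1) => ev x (i + (j : ℕ))) =
            ∑ x ∈ Wk G (k + 1), f (fun j : Fin (m + 1) =>
              ev (fun j : Fin (k + 1) => x j.castSucc) (i + (j : ℕ))) := by
          apply Finset.sum_congr rfl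
          intro x _
          congr 1
          funext j
          have hj := j.2
          rw [ev_of_le x (i + (j : ℕ)) (by omega), ev_of_le _ (i + (j : ℕ)) (by omega)]
          rfl
        rw [h3, hpow, mul_assoc]
        exact h1.trans (mul_le_mul_of_nonneg_left h2 ht)

end Pool.Agent.Helper40.PlzA
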